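import Pool.Agent.Y192.OG.StD

/-!
# Roots of monic polynomials with controlled coefficients are controlled (job OG-D2 of helper192)
-/

set_option autoImplicit false

namespace Pool.Agent.Y105.OG

open Filter Metric Set Topology Pool.Agent.W603.BP Pool.Agent.Y192.OG

variable {N : ℕ}

lemma root_bound {x B S : ℝ} {d : ℕ} (hd : 1 ≤ d) (hB : 0 < B) (C : ℕ → ℝ)
    (hC : ∀ j ∈ Finset.Icc 1 d, 0 ≤ C j) (hS : S = ∑ j ∈ Finset.Icc 1 d, C j)
    (h : x ^ d ≤ ∑ j ∈ Finset.Icc 1 d, C j * B ^ j * x ^ (d - j)) : x ≤ (1 + S) * B := by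
  have hS0 : 0 ≤ S := by rw [hS]; exact Finset.sum_nonneg hC
  rcases le_or_gt x B with h1 | h1
  · nlinarith [mul_nonneg hS0 hB.le]
  · have hx0 : 0 < x := hB.trans h1
    have h2 : ∑ j ∈ Finset.Icc 1 d, C j * B ^ j * x ^ (d - j) ≤
        ∑ j ∈ Finset.Icc 1 d, C j * (B * x ^ (d - 1)) := by
      refine Finset.sum_le_sum fun j hj => ?_
      rw [mul_assoc]
      refine mul_le_mul_of_nonneg_left ?_ (hC j hj)
      obtain ⟨hj1, hj2⟩ := Finset.mem_Icc.1 hj
      have e1 : B ^ j = B * B ^ (j - 1) := by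
        rw [← pow_succ']
        congr 1
        omega
      have e2 : x ^ (d - 1) = x ^ (j - 1) * x ^ (d - j) := by
        rw [← pow_add]
        congr 1
        omega
      rw [e1, e2, mul_assoc]
      have h3 : B ^ (j - 1) ≤ x ^ (j - 1) := pow_le_pow_left₀ hB.le h1.le _
      gcongr
    rw [← Finset.sum_mul, ← hS] at h2
    have e3 : x ^ d = x * x ^ (d - 1) := by
      rw [← pow_succ']
      congr 1
      omega
    have h4 : x * x ^ (d - 1) ≤ S * B * x ^ (d - 1) := by
      rw [← e3, mul_assoc]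
      exact h.trans h2
    have h5 : x ≤ S * B := le_of_mul_le_mul_right h4 (by positivity)
    nlinarith

theorem t_root : St_ring → St_ord → St_root := by
  intro hring hord N c F r Φ w d h a lm nu hrel hctl
  have hnt := (hring N c).2.1
  obtain ⟨hO, -⟩ := hord N c
  have hd : 1 ≤ d := by
    by_contra h0
    have h0' : d = 0 := by omega
    subst h0'
    simp at hrel
  refine ⟨?_, ?_⟩
  · have hex : ∀ j : ℕ, ∃ C : ℝ, j ∈ Finset.Icc 1 d → 0 ≤ C ∧ ∀ n z, ‖z‖ = r.s n →
        ∀ y ∈ closedBall z (r.e n / 2), ‖c.val (a j) y‖ ≤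
          C * Real.exp (j * lm z + (j * w : ℕ) * ∑ φ ∈ Φ, |c.lam z φ|) * (1 / r.e n) ^ (j * w) := by
      intro j
      by_cases hj : j ∈ Finset.Icc 1 d
      · obtain ⟨C, hC0, hC⟩ := (hctl j hj).1
        exact ⟨C, fun _ => ⟨hC0, hC⟩⟩
      · exact ⟨0, fun h => absurd h hj⟩
    choose C hC using hex
    refine ⟨1 + ∑ j ∈ Finset.Icc 1 d, C j, ?_, ?_⟩
    · have := Finset.sum_nonneg fun j hj => (hC j hj).1
      linarith
    intro n z hz y hy
    have hen := r.he n
    have hyU : y ∈ c.U := r.ne n z hz y (closedBall_subset_closedBall (by linarith [hen.1]) hy)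
    set T : ℝ := ∑ φ ∈ Φ, |c.lam z φ| with hT
    set B : ℝ := Real.exp (lm z + w * T) * (1 / r.e n) ^ w with hB
    have hB0 : 0 < B := by
      have : 0 < 1 / r.e n := one_div_pos.2 hen.1
      positivity
    have hBj : ∀ j : ℕ, Real.exp (j * lm z + (j * w : ℕ) * T) * (1 / r.e n) ^ (j * w) = B ^ j := by
      intro j
      rw [hB, mul_pow, ← Real.exp_nat_mul, ← pow_mul, mul_comm w j]
      congr 2
      push_cast
      ring
    have hvr : c.val h y ^ d + ∑ j ∈ Finset.Icc 1 d, c.val (a j) y * c.val h y ^ (d - j) = 0 := by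
      have h1 := congrFun (congrArg Subtype.val hrel) ⟨y, hyU⟩
      have hv : ∀ f : c.Mr, c.val f y = (f : c.U → ℂ) ⟨y, hyU⟩ := fun f => c.ext_of_mem _ hyU
      simp only [hv]
      have h2 : ((h ^ d + ∑ j ∈ Finset.Icc 1 d, a j * h ^ (d - j) : c.Mr) : c.U → ℂ) ⟨y, hyU⟩ =
          (h : c.U → ℂ) ⟨y, hyU⟩ ^ d + ∑ j ∈ Finset.Icc 1 d,
            (a j : c.U → ℂ) ⟨y, hyU⟩ * (h : c.U → ℂ) ⟨y, hyU⟩ ^ (d - j) := by
        push_cast
        simp [Finset.sum_apply]
      rw [← h2]
      exact h1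
    have hmain : ‖c.val h y‖ ^ d ≤
        ∑ j ∈ Finset.Icc 1 d, C j * B ^ j * ‖c.val h y‖ ^ (d - j) := by
      have h1 : c.val h y ^ d = -∑ j ∈ Finset.Icc 1 d, c.val (a j) y * c.val h y ^ (d - j) :=
        eq_neg_of_add_eq_zero_left hvr
      rw [← norm_pow, h1, norm_neg]
      refine (norm_sum_le _ _).trans (Finset.sum_le_sum fun j hj => ?_)
      rw [norm_mul, norm_pow]
      refine mul_le_mul_of_nonneg_right ?_ (by positivity)
      have h2 := (hC j hj).2 n z hz y hy
      rwa [mul_assoc, hBj] at h2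
    have := root_bound hd hB0 C (fun j hj => (hC j hj).1) rfl hmain
    rwa [hB, ← mul_assoc] at this
  · intro z hz
    obtain ⟨omul, oadd, osmul, -, -, omon⟩ := hO z hz
    set v : ℤ := nu z - w * (∑ φ ∈ Φ, |c.del z φ| + c.bad z) with hv
    have o1 : c.ord z 1 = ((0 : ℤ) : WithTop ℤ) := by
      rw [← c.mon_zero, omon 0]
      simp [Curve.del]
    by_contra hlt
    rw [not_le] at hlt
    obtain ⟨k, hk⟩ := WithTop.ne_top_iff_exists.1 hlt.ne_top
    have hkv : k < v := by
      rw [← hk] at hlt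
      exact_mod_cast hlt
    have opow : ∀ m : ℕ, c.ord z (h ^ m) = ((m * k : ℤ) : WithTop ℤ) := by
      intro m
      induction m with
      | zero => rw [pow_zero, o1]; simp
      | succ m ih =>
        rw [pow_succ, omul, ih, ← hk, ← WithTop.coe_add]
        congr 1
        push_cast
        ring
    have hterm : ∀ j ∈ Finset.Icc 1 d, ((d * k + 1 : ℤ) : WithTop ℤ) ≤ c.ord z (a j * h ^ (d - j)) := by
      intro j hj
      obtain ⟨hj1, hj2⟩ := Finset.mem_Icc.1 hj
      have h1 := (hctl j hj).2 z hz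
      rw [omul, opow]
      refine le_trans ?_ (add_le_add_left h1 _)
      rw [← WithTop.coe_add, WithTop.coe_le_coe]
      have e1 : ((d - j : ℕ) : ℤ) = d - j := by push_cast [hj2]; ring
      rw [e1]
      have e2 : (j : ℤ) * nu z - ((j * w : ℕ) : ℤ) * (∑ φ ∈ Φ, |c.del z φ| + c.bad z) = j * v := by
        rw [hv]; push_cast; ring
      rw [e2]
      have h3 : (j : ℤ) * (k + 1) ≤ j * v := by
        apply mul_le_mul_of_nonneg_left _ (by positivity)
        omega
      have h4 : (1 : ℤ) ≤ j := by exact_mod_cast hj1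
      nlinarith
    have hsum : ((d * k + 1 : ℤ) : WithTop ℤ) ≤
        c.ord z (∑ j ∈ Finset.Icc 1 d, a j * h ^ (d - j)) := by
      refine Finset.sum_induction_nonempty _
        (fun f => ((d * k + 1 : ℤ) : WithTop ℤ) ≤ c.ord z f) ?_
        ⟨1, Finset.mem_Icc.2 ⟨le_rfl, hd⟩⟩ hterm
      intro f g hf hg
      exact (le_min hf hg).trans (oadd f g)
    have h5 : h ^ d = (-1 : ℂ) • ∑ j ∈ Finset.Icc 1 d, a j * h ^ (d - j) := by
      rw [neg_smul, one_smul]
      exact eq_neg_of_add_eq_zero_left hrel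
    have h6 := hsum.trans (osmul (-1) _)
    rw [← h5, opow, WithTop.coe_le_coe] at h6
    omega

end Pool.Agent.Y105.OG
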